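import Mathlib
import Pool.Agent.U239.BL.Stm
import Pool.Agent.N852.GR.Lat

/-!
Project BL (helper239), package PCK (helper741): packing of the vectors of a sublattice of
`(𝓞 F)^n` whose classes modulo `q` have small representatives.
-/

set_option autoImplicit false

namespace Pool.Agent.U741.BL.PCK

open scoped Classical
open NumberField Module
open Pool.Agent.N852.GR Pool.Agent.U239.BL

variable {F : Type} [Field F] [NumberField F] {n : ℕ}

theorem io_add (x y : Fin n → 𝓞 F) : io (x + y) = io x + io y := by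
  funext i
  show mixedEmbedding F ((x i + y i : 𝓞 F) : F) =
    mixedEmbedding F (x i : F) + mixedEmbedding F (y i : F)
  rw [← map_add]
  rfl

theorem io_zero : io (0 : Fin n → 𝓞 F) = 0 := by
  funext i
  show mixedEmbedding F ((0 : 𝓞 F) : F) = 0
  simp

theorem io_nsmul (q : ℕ) (y : Fin n → 𝓞 F) : io (q • y) = q • io y := by
  induction q with
  | zero => simp [io_zero]
  | succ q ih => rw [succ_nsmul, succ_nsmul, io_add, ih]

theorem norm_io_nsmul_le (q : ℕ) (y : Fin n → 𝓞 F) : ‖io (q • y)‖ ≤ q * ‖io y‖ := by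
  rw [io_nsmul]
  exact norm_nsmul_le

theorem bl_fin (L : AddSubgroup (Fin n → 𝓞 F)) (R : ℝ) : (bl L R).Finite :=
  (lat_fin n R).subset fun _ hx => hx.2

theorem pck (L : AddSubgroup (Fin n → 𝓞 F)) (ρ : ℝ) (D : ℕ) (hD : D ≤ finrank ℤ L)
    (hL : ∀ q : ℕ, 1 ≤ q → ∀ y ∈ L, ∃ u ∈ L, ∃ v ∈ L, y = u + q • v ∧ ‖io u‖ ≤ q * ρ)
    (q : ℕ) (R : ℝ) (hq : 1 ≤ q) :
    (q : ℝ) ^ D * ((bl L R).ncard : ℝ) ≤ ((bl L (q * (ρ + R))).ncard : ℝ) := by
  haveI hfin : Module.Finite ℤ L :=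
    inferInstanceAs (Module.Finite ℤ (AddSubgroup.toIntSubmodule L))
  haveI hfree : Module.Free ℤ L :=
    inferInstanceAs (Module.Free ℤ (AddSubgroup.toIntSubmodule L))
  set m := finrank ℤ L with hm
  let b : Basis (Fin m) ℤ L := Module.finBasis ℤ L
  let e : (Fin m → Fin q) → L := fun f => ∑ i, ((f i : ℕ) : ℤ) • b i
  have hex : ∀ f : Fin m → Fin q, ∃ u : Fin n → 𝓞 F, u ∈ L ∧ ∃ v : L,
      (e f : Fin n → 𝓞 F) = u + q • (v : Fin n → 𝓞 F) ∧ ‖io u‖ ≤ q * ρ := by
    intro f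
    obtain ⟨u, hu, v, hv, h1, h2⟩ := hL q hq (e f) (e f).2
    exact ⟨u, hu, ⟨v, hv⟩, h1, h2⟩
  choose u hu v huv hub using hex
  let Φ : (Fin m → Fin q) × (Fin n → 𝓞 F) → (Fin n → 𝓞 F) := fun p => u p.1 + q • p.2
  have hmap : Φ '' (Set.univ ×ˢ bl L R) ⊆ bl L (q * (ρ + R)) := by
    rintro _ ⟨⟨f, y⟩, ⟨-, hy⟩, rfl⟩
    have hy1 : y ∈ L := hy.1
    have hy2 : ‖io y‖ ≤ R := hy.2
    refine ⟨L.add_mem (hu f) (L.nsmul_mem hy1 q), ?_⟩
    show ‖io (u f + q • y)‖ ≤ q * (ρ + R)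
    rw [io_add]
    have h1 := norm_add_le (io (u f)) (io (q • y))
    have h2 := norm_io_nsmul_le q y
    have h3 : (q : ℝ) * ‖io y‖ ≤ q * R := mul_le_mul_of_nonneg_left hy2 (Nat.cast_nonneg q)
    have h4 := hub f
    nlinarith
  have hinj : Set.InjOn Φ (Set.univ ×ˢ bl L R) := by
    rintro ⟨f, y⟩ ⟨-, hy⟩ ⟨g, z⟩ ⟨-, hz⟩ hfg
    have hy1 : y ∈ L := hy.1
    have hz1 : z ∈ L := hz.1
    have h0 : u f + q • y = u g + q • z := hfg
    -- the difference of the two combinations is divisible by q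
    have h1 : e f - e g = (q : ℤ) • ((⟨z, hz1⟩ : L) - ⟨y, hy1⟩ + v f - v g) := by
      apply Subtype.ext
      have h2 := huv f
      have h3 := huv g
      have h4 : u f = u g + q • z - q • y := by rw [← h0]; abel
      show (e f : Fin n → 𝓞 F) - (e g : Fin n → 𝓞 F) =
        (q : ℤ) • (z - y + (v f : Fin n → 𝓞 F) - (v g : Fin n → 𝓞 F))
      rw [h2, h3, h4, natCast_zsmul, smul_sub, smul_add, smul_sub]
      abel
    have hcoord : ∀ i, f i = g i := by
      intro i
      have h5 := congrArg (fun x : L => b.repr x i) h1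
      have h6 : ∀ h : Fin m → Fin q, b.repr (e h) i = ((h i : ℕ) : ℤ) := by
        intro h
        show b.repr (∑ j, ((h j : ℕ) : ℤ) • b j) i = _
        rw [b.repr_sum_self]
      simp only [map_sub, map_smul, Finsupp.coe_sub, Pi.sub_apply, Finsupp.coe_smul,
        Pi.smul_apply, smul_eq_mul, h6] at h5
      have h7 : ((q : ℕ) : ℤ) ∣ ((f i : ℕ) : ℤ) - ((g i : ℕ) : ℤ) := ⟨_, h5⟩
      have h8 := (f i).2
      have h9 := (g i).2
      have h10 : |((f i : ℕ) : ℤ) - ((g i : ℕ) : ℤ)| < (q : ℤ) := by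
        rw [abs_lt]
        constructor <;> omega
      have h11 := Int.eq_zero_of_abs_lt_dvd h7 h10
      apply Fin.ext
      omega
    have hfg' : f = g := funext hcoord
    subst hfg'
    have h12 : q • y = q • z := add_left_cancel h0
    have h13 : y = z := by
      have h14 : q • (y - z) = 0 := by rw [smul_sub, h12, sub_self]
      have h15 : y - z = 0 := by
        rcases smul_eq_zero.1 h14 with h | h
        · omega
        · exact h
      exact sub_eq_zero.1 h15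
    rw [h13]
  have hcard : (Set.univ ×ˢ bl L R : Set ((Fin m → Fin q) × (Fin n → 𝓞 F))).ncard =
      q ^ m * (bl L R).ncard := by
    rw [Set.ncard_prod, Set.ncard_univ, Nat.card_eq_fintype_card, Fintype.card_fun,
      Fintype.card_fin, Fintype.card_fin]
  have hle : q ^ m * (bl L R).ncard ≤ (bl L (q * (ρ + R))).ncard := by
    rw [← hcard, ← Set.ncard_image_of_injOn hinj]
    exact Set.ncard_le_ncard hmap (bl_fin L _)
  have hpow : q ^ D ≤ q ^ m := Nat.pow_le_pow_right hq hD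
  calc (q : ℝ) ^ D * ((bl L R).ncard : ℝ) = ((q ^ D * (bl L R).ncard : ℕ) : ℝ) := by push_cast; ring
    _ ≤ ((q ^ m * (bl L R).ncard : ℕ) : ℝ) := by
        exact_mod_cast Nat.mul_le_mul_right _ hpow
    _ ≤ _ := by exact_mod_cast hle

end Pool.Agent.U741.BL.PCK

namespace Pool.Agent.U741.BL

theorem t_PCK (F : Type) [Field F] [NumberField F] : Pool.Agent.U239.BL.S_PCK F := by
  intro n L ρ D hD hL q R hq
  exact PCK.pck L ρ D hD hL q R hq

end Pool.Agent.U741.BL
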